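import Pool.Agent.L7h47.DF.Stm

/-! Project DF, part CHR. -/

set_option autoImplicit false

namespace Pool.Agent.L7h38.DF

open Finset Pool.Agent.L7h47.DF ComplexConjugate

/-- sums over the differences -/
theorem sum_diff {G : Type} [AddCommGroup G] [Fintype G] [DecidableEq G] {k lam : ℕ}
    {D : Finset G} (hD : IsDS G k lam D) (F : G → ℂ) :
    ∑ e ∈ D ×ˢ D, F (e.1 - e.2) = (k - lam) * F 0 + lam * ∑ g, F g := by
  have h1 : ∑ e ∈ D ×ˢ D, F (e.1 - e.2) =
      ∑ g, (((D ×ˢ D).filter fun e => e.1 - e.2 = g).card : ℂ) * F g := by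
    rw [← Finset.sum_fiberwise (D ×ˢ D) (fun e : G × G => e.1 - e.2) (fun e => F (e.1 - e.2))]
    refine Finset.sum_congr rfl fun g _ => ?_
    rw [Finset.sum_congr rfl (g := fun _ => F g) (fun e he => by
      rw [(Finset.mem_filter.1 he).2]), Finset.sum_const, nsmul_eq_mul]
  have h2 : ((D ×ˢ D).filter fun e => e.1 - e.2 = (0 : G)).card = k := by
    rw [← hD.1]
    symm
    apply Finset.card_bij (fun d _ => (d, d))
    · intro d hd
      simp [hd]
    · intro a _ b _ hab
      exact congrArg Prod.fst hab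
    · rintro ⟨a, b⟩ hab
      rw [Finset.mem_filter, Finset.mem_product] at hab
      have h3 : a = b := sub_eq_zero.1 hab.2
      exact ⟨a, hab.1.1, by rw [h3]⟩
  rw [h1, ← Finset.add_sum_erase _ _ (Finset.mem_univ (0 : G)), h2,
    ← Finset.add_sum_erase _ F (Finset.mem_univ (0 : G)),
    Finset.sum_congr rfl (g := fun g => (lam : ℂ) * F g) (fun g hg => by
      rw [hD.2 g (Finset.ne_of_mem_erase hg)]), ← Finset.mul_sum]
  ring

theorem s_CHR : S_CHR := by
  intro G _ _ _ k lam D hD hlk hsq u hu hu2 f hf c hc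
  have : Fact u.Prime := ⟨hu⟩
  have : NeZero u := ⟨hu.ne_zero⟩
  have h2 : (2 : ZMod u) ≠ 0 := by
    intro h
    have h3 : ((2 : ℕ) : ZMod u) = 0 := by exact_mod_cast h
    rw [ZMod.natCast_eq_zero_iff] at h3
    exact hu2 ((Nat.prime_dvd_prime_iff_eq hu Nat.prime_two).1 h3)
  obtain ⟨h, hh⟩ : ∃ h : ZMod u, h + h = c := ⟨c / 2, by field_simp; ring⟩
  obtain ⟨ψ, hψ⟩ : ∃ ψ : AddChar (ZMod u) ℂ, ψ = ZMod.stdAddChar := ⟨_, rfl⟩
  have hprim : ψ.IsPrimitive := by rw [hψ]; exact ZMod.isPrimitive_stdAddChar u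
  obtain ⟨M, hM⟩ : ∃ M : ZMod u → ℕ, ∀ i, M i = (D.filter fun d => f d + h = i).card :=
    ⟨_, fun _ => rfl⟩
  have hMs : ∀ i, M (-i) = M i := by
    intro i
    rw [hM, hM]
    have h3 := hc (i + h)
    have h4 : (D.filter fun d => f d + h = -i) = D.filter fun d => f d = -(i + h) := by
      apply Finset.filter_congr
      intro d _
      constructor
      · intro h5
        rw [neg_add, ← h5]
        ring
      · intro h5
        rw [h5]
        ring
    have h5 : (D.filter fun d => f d + h = i) = D.filter fun d => f d + c = i + h := by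
      apply Finset.filter_congr
      intro d _
      rw [← hh, ← add_assoc, add_left_inj]
    rw [h4, h5, h3]
  obtain ⟨E, hE⟩ : ∃ E : ZMod u → ℂ, ∀ t, E t = ∑ d ∈ D, ψ (t * (f d + h)) := ⟨_, fun _ => rfl⟩
  have hE2 : ∀ t, E t = ∑ i, (M i : ℂ) * ψ (t * i) := by
    intro t
    rw [hE, ← Finset.sum_fiberwise D (fun d => f d + h) (fun d => ψ (t * (f d + h)))]
    refine Finset.sum_congr rfl fun i _ => ?_
    rw [Finset.sum_congr rfl (g := fun _ => ψ (t * i)) (fun e he => by
      rw [(Finset.mem_filter.1 he).2]), Finset.sum_const, nsmul_eq_mul, hM]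
  have hEc : ∀ t, conj (E t) = E t := by
    intro t
    rw [hE2, map_sum]
    rw [← Equiv.sum_comp (Equiv.neg (ZMod u)) (fun i => (M i : ℂ) * ψ (t * i))]
    refine Finset.sum_congr rfl fun i _ => ?_
    rw [map_mul, Equiv.neg_apply, hMs, mul_neg, AddChar.map_neg_eq_conj, Complex.conj_natCast]
  have hEn : ∀ t, t ≠ 0 → E t * E t = ((k - lam : ℕ) : ℂ) := by
    intro t ht
    have h3 : E t * conj (E t) = ∑ e ∈ D ×ˢ D, ψ (t * f (e.1 - e.2)) := by
      rw [hE, map_sum, Finset.sum_mul_sum, ← Finset.sum_product']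
      refine Finset.sum_congr rfl fun e _ => ?_
      rw [← AddChar.map_neg_eq_conj, ← AddChar.map_add_eq_mul, map_sub]
      congr 1
      ring
    rw [hEc] at h3
    rw [h3, sum_diff hD (fun g => ψ (t * f g))]
    have h4 : ∑ g, ψ (t * f g) = 0 := by
      obtain ⟨x, hx⟩ : ∃ x, ψ (t * x) ≠ 1 := by
        by_contra hcon
        push Not at hcon
        apply hprim ht
        ext x
        rw [AddChar.mulShift_apply, hcon x]
        rfl
      obtain ⟨g1, hg1⟩ := hf x
      have h5 : ∑ g, ψ (t * f g) = ψ (t * x) * ∑ g, ψ (t * f g) := by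
        rw [Finset.mul_sum, ← Equiv.sum_comp (Equiv.addLeft g1) (fun g => ψ (t * f g))]
        refine Finset.sum_congr rfl fun g _ => ?_
        rw [Equiv.coe_addLeft, map_add, hg1, mul_add, AddChar.map_add_eq_mul]
      have h6 : (1 - ψ (t * x)) * ∑ g, ψ (t * f g) = 0 := by linear_combination h5
      exact (mul_eq_zero.1 h6).resolve_left (sub_ne_zero.2 (Ne.symm hx))
    rw [h4, map_zero, mul_zero, AddChar.map_zero_eq_one, Nat.cast_sub hlk.le]
    ring
  have hEs : ∑ t, E t = u * M 0 := by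
    have h3 : ∀ t, E t = ∑ i, (M i : ℂ) * ψ (t * i) := hE2
    rw [Finset.sum_congr rfl fun t _ => h3 t, Finset.sum_comm]
    simp only [← Finset.mul_sum]
    rw [Finset.sum_eq_single 0]
    · rw [AddChar.sum_mulShift 0 hprim]
      simp [ZMod.card, mul_comm]
    · intro i _ hi
      rw [AddChar.sum_mulShift i hprim, if_neg hi]
      simp
    · simp
  have hE0 : E 0 = k := by
    rw [hE]
    simp [hD.1]
  -- real parts
  obtain ⟨n, hn⟩ : ∃ n, n = k - lam := ⟨_, rfl⟩
  rw [← hn] at hsq hEn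
  have hre : ∀ t, t ≠ 0 → ∃ s : ℤ, (E t).re = s * √(n : ℝ) := by
    intro t ht
    have h3 := hEn t ht
    have h4 : (E t).im = 0 := by
      have := hEc t
      rwa [Complex.conj_eq_iff_im] at this
    have h5 : (E t).re * (E t).re = n := by
      have := congrArg Complex.re h3
      rw [Complex.mul_re, h4] at this
      simpa using this
    have h6 : √(n : ℝ) * √(n : ℝ) = n := Real.mul_self_sqrt (Nat.cast_nonneg n)
    have h7 : (E t).re = √(n : ℝ) ∨ (E t).re = -√(n : ℝ) := by
      apply mul_self_eq_mul_self_iff.1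
      rw [h5, h6]
    rcases h7 with h7 | h7
    · exact ⟨1, by rw [h7]; simp⟩
    · exact ⟨-1, by rw [h7]; simp⟩
  choose! s hs using hre
  have h8 : ∑ t ∈ univ.erase (0 : ZMod u), (E t).re = (u * M 0 : ℝ) - k := by
    have h9 := congrArg Complex.re hEs
    rw [Complex.re_sum, ← Finset.add_sum_erase _ _ (Finset.mem_univ (0 : ZMod u)), hE0] at h9
    have h10 : ((u : ℂ) * (M 0 : ℂ)).re = u * M 0 := by
      have : ((u : ℂ) * (M 0 : ℂ)) = ((u * M 0 : ℕ) : ℂ) := by push_cast; ring
      rw [this, Complex.natCast_re]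
      push_cast
      ring
    rw [h10, Complex.natCast_re] at h9
    linarith
  have h9 : ∑ t ∈ univ.erase (0 : ZMod u), (E t).re =
      ((∑ t ∈ univ.erase (0 : ZMod u), s t : ℤ) : ℝ) * √(n : ℝ) := by
    rw [Int.cast_sum, Finset.sum_mul]
    exact Finset.sum_congr rfl fun t ht => hs t (Finset.ne_of_mem_erase ht)
  rw [h9] at h8
  have hirr : Irrational √(n : ℝ) := irrational_sqrt_natCast_iff.2 hsq
  have h10 : (∑ t ∈ univ.erase (0 : ZMod u), s t : ℤ) = 0 := by
    by_contra hcon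
    have h11 : Irrational (((∑ t ∈ univ.erase (0 : ZMod u), s t : ℤ) : ℝ) * √(n : ℝ)) :=
      hirr.intCast_mul hcon
    apply h11
    refine ⟨(u * M 0 : ℚ) - k, ?_⟩
    rw [h8]
    push_cast
    ring
  rw [h10] at h8
  have h11 : ((u * M 0 : ℕ) : ℝ) = k := by
    push_cast at h8 ⊢
    linarith
  have h12 : u * M 0 = k := by exact_mod_cast h11
  exact ⟨M 0, h12.symm⟩

end Pool.Agent.L7h38.DF
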